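import Pool.Agent.Q169.CT.Poly

/-!
# Zero in the spectrum and polycyclic subgroups of codimension two

`FinRes G` (starting files, `Pool/Agent/H919R4/ZS/Defs.lean`) is a finite resolution of the trivial
module `ℤ` by finitely generated free `ℤ[G]`-modules, given by its matrices, for instance the
cellular chain complex of the universal covering of a closed aspherical manifold `M` with
fundamental group `G` (up to homotopy a finite complex). `X.cohomology i` is `H^i(G; ℤ[G])`; for the
group of a closed aspherical `n`-manifold it is `0` for `i ≠ n` and infinite cyclic for `i = n`.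
`X.homology (toRed G) i` is the homology of `M` with coefficients in the reduced group
`C*`-algebra. `PolyZ s C`: the subgroup `C` is poly-(infinite cyclic) of Hirsch length `s`.
-/

set_option autoImplicit false

namespace Pool.Agent.Results.MP_48737f_gt.CodimensionTwoSubgroups

open Pool.Agent.H919R4.ZS (FinRes toRed)
open Pool.Agent.Q169.CT (PolyZ)

/-- Let `n ≥ 2` and let `G` be a group with a finite free resolution `X` such that
`H^i(G; ℤ[G]) = 0` for `i < n` and `H^n(G; ℤ[G])` is infinite cyclic. If `G` contains a
poly-(infinite cyclic) subgroup of Hirsch length `s ≥ n - 2`, then `H_i(G; C*_r(G))` is not zero for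
some `i ≤ 2`. -/
theorem result {G : Type} [Group G] (X : FinRes G) (n : ℕ) (hn : 2 ≤ n)
    (hX : ∀ i < n, Subsingleton (X.cohomology i)) (hXn : Nonempty (X.cohomology n ≃+ ℤ))
    (s : ℕ) (C : Subgroup G) (hC : PolyZ s C) (hs : n ≤ s + 2) :
    ∃ i ≤ 2, Nontrivial (X.homology (toRed G) i) :=
  Pool.Agent.Q169.CT.main2 X n hn hX hXn s C hC hs

end Pool.Agent.Results.MP_48737f_gt.CodimensionTwoSubgroups
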