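import Pool.Agent.Q169.FT.All

/-!
# Zero in the spectrum and reflections

`U` is an acyclic complex with a free action of `N` with finitely many orbits of cells (for instance
the universal cover of a finite aspherical complex with fundamental group `N`), given by its cells
`U.E i` and the cellular boundary maps `U.bd i`, and `V` is such a complex for `L`. `ι` embeds `V`
as a subcomplex of `U`, and the image is an inherited subcomplex (`Inh`, file
Pool/Agent/Q169/FT/Stm.lean): the inherited subcomplexes are the smallest family of subcomplexes
which contains `U` and is closed under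

* passing to a face of the chamber `C` of a finite Coxeter group `K` which acts on an inherited
  subcomplex `B` as a reflection group with fundamental chamber `C` (`Refl`); for instance the fixed
  set of `K`. The group `K` is not assumed to commute with `N`;
* bounded chain retracts (`Retr`);
* `A₁ ∩ A₂` if `A₁`, `A₂` and `A₁ ∪ A₂` are inherited.

If the zero in the spectrum conjecture holds for `L`, or if the compactly supported cohomology
`H_c^d(V; ℤ)` is infinite cyclic for some `d ≤ 3` (`HcZ`; for instance if `V` is a contractible
manifold of dimension at most three), then it holds for `N`. Here the conjecture is the assertion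
that for a finite free resolution `X` of `ℤ` over `ℤ[N]` some `H_i(X; C*_r(N))` is not zero, as in
the starting files of this problem.

If `M` is a closed aspherical manifold with universal cover `U` and `τ` an involution of `M` whose
fixed set has a component `F` of codimension one, then a lift of `τ` to `U` is a reflection of `U`
whose fixed set `V` is a component of the inverse image of `F`, and `L` is the stabiliser of `V`,
the fundamental group of `F`. So the conjecture for `M` follows from that for `F`; it holds for all
closed aspherical 4-manifolds with such an involution.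
-/

set_option autoImplicit false

namespace Pool.Agent.Results.MP_48737f_gt.ReflectionTowers

open Pool.Agent.H919R4.ZS (FinRes toRed)
open Pool.Agent.TH38.CX (AcyclicGComplex)
open Pool.Agent.Q169.FT (Inh HcZ)

theorem result {N : Type} [Group N] (U : AcyclicGComplex N)
    (hU : ∀ i (n : N) (e : U.E i), n • e = e → n = 1)
    (c : ℕ → ℕ) (rep : ∀ i, Fin (c i) → U.E i)
    (hrep : ∀ i (e : U.E i), ∃! a, e ∈ MulAction.orbit N (rep i a))
    {L : Type} [Group L] (V : AcyclicGComplex L)
    (hV : ∀ i (n : L) (e : V.E i), n • e = e → n = 1) (htf : ∀ g : L, IsOfFinOrder g → g = 1)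
    (c' : ℕ → ℕ) (rep' : ∀ i, Fin (c' i) → V.E i)
    (hrep' : ∀ i (e : V.E i), ∃! a, e ∈ MulAction.orbit L (rep' i a))
    (ι : ∀ i, V.E i → U.E i) (hι : ∀ i, Function.Injective (ι i))
    (hbd : ∀ i (e : V.E (i + 1)), U.bd i (Finsupp.single (ι (i + 1) e) 1) =
      (V.bd i (Finsupp.single e 1)).mapDomain (ι i))
    (hinh : Inh (fun i (e : U.E (i + 1)) => U.bd i (Finsupp.single e 1))
      (fun i => Set.range (ι i)))
    (h : (∃ (Y : FinRes L) (i : ℕ), Nontrivial (Y.homology (toRed L) i)) ∨ ∃ d ≤ 3, HcZ V d)
    (X : FinRes N) : ∃ i, Nontrivial (X.homology (toRed N) i) :=
  Pool.Agent.Q169.FT.all U hU c rep hrep V hV htf c' rep' hrep' ι hι hbd hinh h X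

end Pool.Agent.Results.MP_48737f_gt.ReflectionTowers
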