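import Pool.Agent.Q169.ZD.Final

/-!
# Zero in the spectrum for closed aspherical manifolds with a reflection structure

`(W, S)` is a Coxeter system, `H` a group which permutes `S`, `Y` a complex with mirrors on which
`H` acts freely and cocompactly (`Mirrored`), `𝒰(W, Y) = W × Y / ∼` is acyclic (`IsAcyclic`), and
`N` is a torsion-free subgroup of finite index in `W ⋊ H`; so `𝒰(W, Y) / N` is a finite complex,
aspherical with fundamental group `N` if `𝒰(W, Y)` is contractible. `q` is a weight function on `W`,
invariant under `H` (for instance `q w = r ^ ℓ(w)`), and the sum in the hypothesis `hsum` runs over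
the orbits of cells of `Y`: `∑ (-1) ^ dim e / ∑_{u ∈ W_{S(e)}} q u ≠ 0`, where `S(e)` is the set of
the mirrors containing `e`.

A finite aspherical complex with fundamental group `N` enters through the cellular chain complex
`X : FinRes N` of its universal cover, as in the starting files of this problem, and
`X.homology (toRed N) i` is `H_i(M; C*_r(N))`.
-/

set_option autoImplicit false

namespace Pool.Agent.Results.MP_48737f_gt.ReflectionTrick

open Pool.Agent.Q169.ZD
open Pool.Agent.H919R4.ZS (FinRes toRed)

theorem result {B : Type} {M : CoxeterMatrix B} {W : Type} [Group W] (cs : CoxeterSystem M W)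
    {H : Type} [Group H] [MulAction H B] (φ : H →* MulAut W)
    (hφ : ∀ h b, φ h (cs.simple b) = cs.simple (h • b)) (Y : Mirrored H B)
    (hfin : ∀ i (e : Y.E i), Finite (par cs (Y.mir i e))) (hU : IsAcyclic cs Y)
    (N : Subgroup (W ⋊[φ] H)) [N.FiniteIndex] (hN : ∀ g ∈ N, IsOfFinOrder g → g = 1)
    (q : W → ℝ) (hq : IsWeight cs q) (hqH : ∀ h w, q (φ h w) = q w)
    (hsum : ∑ i ∈ Finset.range (Y.len + 1), ∑ a : Fin (Y.c i),
      (-1 : ℝ) ^ i / ∑ᶠ u : par cs (Y.mir i (Y.rep i a)), q u ≠ 0)
    (X : FinRes N) : ∃ i, Nontrivial (X.homology (toRed N) i) :=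
  final cs φ hφ Y hfin hU N hN q hq hqH hsum X

end Pool.Agent.Results.MP_48737f_gt.ReflectionTrick
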